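import Mathlib
import Pool.Agent.H759R2.Kad.Props3

/-! Successive choice of the families of unitaries. -/

open scoped ComplexOrder InnerProductSpace ComplexConjugate
open Finset

noncomputable section

namespace H759R2.Kad

universe u v

namespace A02

variable {B : Type u} [CStarAlgebra B]

/-- a single family -/
abbrev Sg (B : Type u) [CStarAlgebra B] : Type u := Σ k : ℕ, Fin (k + 1) → unitary B

/-- families from a function -/
def toFam {n : ℕ} (φ : Fin n → Sg B) : Fam B n := ⟨fun c => (φ c).1, fun c => (φ c).2⟩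

/-- the single families of `F` -/
def ofFam {n : ℕ} (F : Fam B n) (c : Fin n) : Sg B := ⟨F.k c, F.g c⟩

/-- left average -/
def PL (τ : B →ₗ[ℂ] ℂ) (ε : ℝ) (y : B) (σ : Sg B) : Prop :=
  ‖((σ.1 + 1 : ℂ))⁻¹ • ∑ s, star (σ.2 s : B) * y * (σ.2 s : B) - algebraMap ℂ B (τ y)‖ ≤ ε

/-- right average -/
def PR (τ : B →ₗ[ℂ] ℂ) (ε : ℝ) (y : B) (σ : Sg B) : Prop :=
  ‖((σ.1 + 1 : ℂ))⁻¹ • ∑ s, (σ.2 s : B) * y * star (σ.2 s : B) - algebraMap ℂ B (τ y)‖ ≤ ε

/-- left coefficients -/
def CL (τ : B →ₗ[ℂ] ℂ) (ε : ℝ) (y : B) (σ : Sg B) : Prop :=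
  ‖((σ.1 + 1 : ℂ))⁻¹ • ∑ s, τ (y * star (σ.2 s : B)) • (σ.2 s : B)‖ ≤ ε * ‖y‖

/-- right coefficients -/
def CR (τ : B →ₗ[ℂ] ℂ) (ε : ℝ) (y : B) (σ : Sg B) : Prop :=
  ‖((σ.1 + 1 : ℂ))⁻¹ • ∑ s, τ (y * (σ.2 s : B)) • star (σ.2 s : B)‖ ≤ ε * ‖y‖

/-- members up to adjoint -/
def Mem (a : B) (σ : Sg B) : Prop := ∃ s, a = σ.2 s ∨ a = star (σ.2 s : B)

/-- words in arbitrary letters -/
def Words (X : Set B) {n : ℕ} (φ : Fin n → Sg B) (K : ℕ) : Set B :=
  {y | ∃ l : List B, l.length ≤ K ∧ y = l.prod ∧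
    ∀ a ∈ l, a ∈ X ∨ star a ∈ X ∨ ∃ b : Fin n, Mem a (φ b)}

theorem mem_finite (σ : Sg B) : {a : B | Mem a σ}.Finite := by
  have h : {a : B | Mem a σ} ⊆ Set.range (fun s : Fin (σ.1 + 1) => (σ.2 s : B)) ∪
      Set.range (fun s : Fin (σ.1 + 1) => star (σ.2 s : B)) := by
    rintro a ⟨s, h | h⟩
    · exact Or.inl ⟨s, h.symm⟩
    · exact Or.inr ⟨s, h.symm⟩
  exact ((Set.finite_range _).union (Set.finite_range _)).subset h

theorem words_finite {X : Set B} (hX : X.Finite) {n : ℕ} (φ : Fin n → Sg B) (K : ℕ) :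
    (Words X φ K).Finite := by
  set A : Set B := X ∪ (star '' X) ∪ ⋃ b : Fin n, {a : B | Mem a (φ b)} with hA
  have hAf : A.Finite := (hX.union (hX.image _)).union (Set.finite_iUnion fun b => mem_finite _)
  have : Finite A := hAf
  have hL : {l : List A | l.length ≤ K}.Finite := List.finite_length_le A K
  refine (hL.image (fun l => (l.map Subtype.val).prod)).subset ?_
  rintro y ⟨l, hl, rfl, h⟩
  have hmem : ∀ a ∈ l, a ∈ A := by
    intro a ha
    rcases h a ha with h1 | h1 | ⟨b, h1⟩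
    · exact Or.inl (Or.inl h1)
    · exact Or.inl (Or.inr ⟨star a, h1, star_star a⟩)
    · exact Or.inr (Set.mem_iUnion.2 ⟨b, h1⟩)
  refine ⟨l.attachWith (· ∈ A) hmem, ?_, ?_⟩
  · show (l.attachWith (· ∈ A) hmem).length ≤ K
    rw [List.length_attachWith]
    exact hl
  · show ((l.attachWith (· ∈ A) hmem).map Subtype.val).prod = l.prod
    rw [List.attachWith_map_subtype_val]

/-- good, in terms of the function -/
theorem good_iff {n : ℕ} (φ : Fin n → Sg B) (τ : B →ₗ[ℂ] ℂ) (X : Set B) (K : ℕ) (ε : ℝ)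
    (h1 : ∀ c y, (toFam φ).IsWord X K c y → PL τ ε y (φ c) ∧ PR τ ε y (φ c))
    (h2 : ∀ c y, CL τ ε y (φ c) ∧ CR τ ε y (φ c)) : (toFam φ).Good τ X K ε :=
  ⟨fun c y h => (h1 c y h).1, fun c y h => (h1 c y h).2, fun c y => (h2 c y).1,
    fun c y => (h2 c y).2⟩

end A02

open A02

theorem prove3_fam (h : K_fam1.{u}) : K_fam.{u} := by
  intro B _ _ _ τ hτ hD hO n X hX K ε hε
  induction n with
  | zero =>
    refine ⟨⟨fun c => c.elim0, fun c => c.elim0⟩, ?_⟩
    exact ⟨fun c => c.elim0, fun c => c.elim0, fun c => c.elim0, fun c => c.elim0⟩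
  | succ n ih =>
    obtain ⟨F, hF⟩ := ih
    obtain ⟨k, g, hg1, hg2⟩ := h B τ hτ hD hO (Words X (ofFam F) K)
      (words_finite hX (ofFam F) K) ε hε
    set φ : Fin (n + 1) → Sg B := Fin.snoc (α := fun _ => Sg B) (ofFam F) ⟨k, g⟩ with hφ
    have hφ1 : ∀ c : Fin n, φ c.castSucc = ofFam F c := fun c => by
      rw [hφ, Fin.snoc_castSucc]
    have hφ2 : φ (Fin.last n) = ⟨k, g⟩ := by rw [hφ, Fin.snoc_last]
    refine ⟨toFam φ, good_iff φ τ X K ε ?_ ?_⟩
    · intro c y hy
      induction c using Fin.lastCases with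
      | last =>
        rw [hφ2]
        apply hg1 y
        obtain ⟨l, hl, hy2, h3⟩ := hy
        refine ⟨l, hl, hy2, ?_⟩
        intro a ha
        rcases h3 a ha with h4 | h4 | ⟨b, hb, h4⟩
        · exact Or.inl h4
        · exact Or.inr (Or.inl h4)
        · right; right
          have h5 : Mem a (φ b) := h4
          induction b using Fin.lastCases with
          | last => exact absurd hb (lt_irrefl _)
          | cast b =>
            rw [hφ1] at h5
            exact ⟨b, h5⟩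
      | cast c =>
        rw [hφ1]
        have hw : F.IsWord X K c y := by
          obtain ⟨l, hl, hy2, h3⟩ := hy
          refine ⟨l, hl, hy2, ?_⟩
          intro a ha
          rcases h3 a ha with h4 | h4 | ⟨b, hb, h4⟩
          · exact Or.inl h4
          · exact Or.inr (Or.inl h4)
          · right; right
            have h5 : Mem a (φ b) := h4
            induction b using Fin.lastCases with
            | last => exact absurd hb (not_lt.2 (Fin.le_last _))
            | cast b =>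
              rw [hφ1] at h5
              exact ⟨b, Fin.castSucc_lt_castSucc_iff.1 hb, h5⟩
        exact ⟨hF.avgl c y hw, hF.avgr c y hw⟩
    · intro c y
      induction c using Fin.lastCases with
      | last =>
        rw [hφ2]
        exact hg2 y
      | cast c =>
        rw [hφ1]
        exact ⟨hF.coefl c y, hF.coefr c y⟩

end H759R2.Kad
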